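import Pool.Agent.Helper70.Matching.Specs1

set_option autoImplicit false
open Finset
open Pool.Agent.Helper70.Matching

namespace Pool.Agent.Helper11.Matching

theorem cutPM : Spec_cutPM := by
  intro E _ I b _ hcut P c h
  induction h with
  | nil => exact ⟨0, 0, 0, by simp, by simp, by simpa using PM.nil, by simpa using PM.nil⟩
  | @cons x y P c h ih =>
    obtain ⟨Z, c₁, c₂, hZ, hc, h1, h2⟩ := ih
    by_cases hx : x ∈ I <;> by_cases hy : y ∈ I
    · refine ⟨Z, dist x y + c₁, c₂, hZ, by linarith, ?_, ?_⟩
      · rw [Multiset.filter_cons_of_pos _ hx, Multiset.filter_cons_of_pos _ hy,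
          Multiset.cons_add, Multiset.cons_add]
        exact PM.cons x y h1
      · rw [Multiset.filter_cons_of_neg _ (by simpa using hx),
          Multiset.filter_cons_of_neg _ (by simpa using hy)]
        exact h2
    · obtain ⟨z, hz, hd⟩ := hcut x hx y hy
      refine ⟨z ::ₘ Z, dist x z + c₁, dist y z + c₂, ?_, ?_, ?_, ?_⟩
      · intro w hw
        rcases Multiset.mem_cons.1 hw with rfl | hw
        · exact hz
        · exact hZ w hw
      · rw [dist_comm y z]; linarith
      · rw [Multiset.filter_cons_of_pos _ hx, Multiset.filter_cons_of_neg _ hy,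
          Multiset.cons_add, Multiset.add_cons]
        exact PM.cons x z h1
      · rw [Multiset.filter_cons_of_neg _ (by simpa using hx),
          Multiset.filter_cons_of_pos _ (by simpa using hy),
          Multiset.cons_add, Multiset.add_cons]
        exact PM.cons y z h2
    · obtain ⟨z, hz, hd⟩ := hcut y hy x hx
      refine ⟨z ::ₘ Z, dist y z + c₁, dist x z + c₂, ?_, ?_, ?_, ?_⟩
      · intro w hw
        rcases Multiset.mem_cons.1 hw with rfl | hw
        · exact hz
        · exact hZ w hw
      · rw [dist_comm x z, dist_comm x y]; linarith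
      · rw [Multiset.filter_cons_of_neg _ hx, Multiset.filter_cons_of_pos _ hy,
          Multiset.cons_add, Multiset.add_cons]
        exact PM.cons y z h1
      · rw [Multiset.filter_cons_of_pos _ (by simpa using hx),
          Multiset.filter_cons_of_neg _ (by simpa using hy),
          Multiset.cons_add, Multiset.add_cons]
        exact PM.cons x z h2
    · refine ⟨Z, c₁, dist x y + c₂, hZ, by linarith, ?_, ?_⟩
      · rw [Multiset.filter_cons_of_neg _ hx, Multiset.filter_cons_of_neg _ hy]
        exact h1
      · rw [Multiset.filter_cons_of_pos _ (by simpa using hx),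
          Multiset.filter_cons_of_pos _ (by simpa using hy),
          Multiset.cons_add, Multiset.cons_add]
        exact PM.cons x y h2

theorem cutRect : Spec_cutRect := by
  intro D hD x hx y hy
  set f : ℝ → ℂ := fun s => x + (s : ℂ) * (y - x) with hf
  have hre : ∀ s : ℝ, (f s).re = x.re + s * (y.re - x.re) := by
    intro s; simp [hf]
  have him : ∀ s : ℝ, (f s).im = x.im + s * (y.im - x.im) := by
    intro s; simp [hf]
  set φ : ℝ → ℝ := fun s => min (min ((f s).re - D.a) (D.a' - (f s).re))
    (min ((f s).im - D.c) (D.c' - (f s).im)) with hφ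
  have hcont : Continuous φ := by
    have h1 : Continuous (fun s => (f s).re) := by simp only [hre]; fun_prop
    have h2 : Continuous (fun s => (f s).im) := by simp only [him]; fun_prop
    simp only [hφ]
    fun_prop
  have h0 : 0 < φ 0 := by
    have e1 : (f 0).re = x.re := by rw [hre]; ring
    have e2 : (f 0).im = x.im := by rw [him]; ring
    simp only [hφ, e1, e2]
    obtain ⟨a1, a2, a3, a4⟩ := hx
    exact lt_min (lt_min (by linarith) (by linarith)) (lt_min (by linarith) (by linarith))
  have h1 : φ 1 ≤ 0 := by
    have e1 : (f 1).re = y.re := by rw [hre]; ring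
    have e2 : (f 1).im = y.im := by rw [him]; ring
    simp only [hφ, e1, e2]
    by_contra hcon
    push Not at hcon
    apply hy
    rw [lt_min_iff, lt_min_iff, lt_min_iff] at hcon
    obtain ⟨⟨a1, a2⟩, a3, a4⟩ := hcon
    exact ⟨by linarith, by linarith, by linarith, by linarith⟩
  obtain ⟨s, ⟨hs0, hs1⟩, hs⟩ : ∃ s ∈ Set.Icc (0 : ℝ) 1, φ s = 0 := by
    have := intermediate_value_Icc' (zero_le_one : (0 : ℝ) ≤ 1) hcont.continuousOn
    exact this ⟨h1, h0.le⟩
  refine ⟨f s, ?_, ?_⟩
  · have hs' := hs
    simp only [hφ] at hs'
    have g := hs'.ge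
    rw [le_min_iff, le_min_iff, le_min_iff] at g
    obtain ⟨⟨a1, a2⟩, a3, a4⟩ := g
    refine ⟨by linarith, by linarith, by linarith, by linarith, ?_⟩
    by_contra hcon
    push Not at hcon
    obtain ⟨n1, n2, n3, n4⟩ := hcon
    have : 0 < φ s := by
      simp only [hφ]
      refine lt_min (lt_min ?_ ?_) (lt_min ?_ ?_)
      · exact lt_of_le_of_ne a1 (fun h => n1 (by linarith))
      · exact lt_of_le_of_ne a2 (fun h => n2 (by linarith))
      · exact lt_of_le_of_ne a3 (fun h => n3 (by linarith))
      · exact lt_of_le_of_ne a4 (fun h => n4 (by linarith))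
    exact absurd hs this.ne'
  · have e1 : dist x (f s) = s * ‖y - x‖ := by
      rw [dist_comm, dist_eq_norm]
      have : f s - x = (s : ℂ) * (y - x) := by simp [hf]
      rw [this, norm_mul, Complex.norm_real, Real.norm_of_nonneg hs0]
    have e2 : dist (f s) y = (1 - s) * ‖y - x‖ := by
      rw [dist_comm, dist_eq_norm]
      have : y - f s = ((1 - s : ℝ) : ℂ) * (y - x) := by simp [hf]; ring
      rw [this, norm_mul, Complex.norm_real, Real.norm_of_nonneg (by linarith)]
    rw [e1, e2, dist_comm x y, dist_eq_norm]
    linarith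

end Pool.Agent.Helper11.Matching
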