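import Pool.Agent.Helper70.Matching.Specs4

set_option autoImplicit false
open Finset
open Pool.Agent.Helper70.Matching

namespace Pool.Agent.Helper11.Matching

/-! ### Small facts -/

theorem isWt_bw {V : Type} {p : ℝ} (h0 : 0 ≤ p) (h1 : p ≤ 1) : IsWt (bw p : V → Bool → ℝ) where
  nonneg := by
    intro k a; cases a
    · simpa [bw] using h1
    · simpa [bw] using h0
  sum_one := by intro k; simp [bw]

theorem exp_neg_two_le {x : ℝ} (h0 : 0 ≤ x) (h1 : x ≤ 1 / 2) : Real.exp (-(2 * x)) ≤ 1 - x := by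
  have h2 : 1 + 2 * x ≤ Real.exp (2 * x) := by
    have := Real.add_one_le_exp (2 * x); linarith
  rw [Real.exp_neg]
  have h3 : 0 < 1 + 2 * x := by linarith
  calc (Real.exp (2 * x))⁻¹ ≤ (1 + 2 * x)⁻¹ := inv_anti₀ h3 h2
    _ ≤ 1 - x := by
      rw [inv_le_iff_one_le_mul₀ h3]
      nlinarith

theorem cnt_congr {V : Type} {A : Finset V} {ω ω' : V → Bool} (h : ∀ v ∈ A, ω v = ω' v) :
    cnt A ω = cnt A ω' := by
  unfold cnt
  congr 1
  apply Finset.filter_congr
  intro v hv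
  rw [h v hv]

theorem cnt_split {V : Type} [DecidableEq V] {A D : Finset V} (hD : D ⊆ A) (ω : V → Bool) :
    cnt A ω = cnt D ω + cnt (A \ D) ω := by
  unfold cnt
  rw [← Finset.card_union_of_disjoint]
  · congr 1
    ext v
    simp only [mem_filter, mem_union, mem_sdiff]
    constructor
    · rintro ⟨h1, h2⟩
      by_cases h3 : v ∈ D
      · exact Or.inl ⟨h3, h2⟩
      · exact Or.inr ⟨⟨h1, h3⟩, h2⟩
    · rintro (⟨h1, h2⟩ | ⟨⟨h1, _⟩, h2⟩)
      · exact ⟨hD h1, h2⟩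
      · exact ⟨h1, h2⟩
  · rw [Finset.disjoint_left]
    intro v h1 h2
    simp only [mem_filter, mem_sdiff] at h1 h2
    exact h2.1.2 h1.1

theorem mem_sites {D : NBox} {N : ℕ} {v : Site N} :
    v ∈ D.sites N ↔ D.x0 ≤ (v.1 : ℕ) ∧ (v.1 : ℕ) < D.x1 ∧ D.y0 ≤ (v.2 : ℕ) ∧ (v.2 : ℕ) < D.y1 := by
  simp [NBox.sites]

theorem card_fin_filter (N a b : ℕ) (hb : b ≤ N) :
    (univ.filter (fun i : Fin N => a ≤ (i : ℕ) ∧ (i : ℕ) < b)).card = b - a := by
  rw [← Nat.card_Ico, ← Finset.card_map Fin.valEmbedding]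
  congr 1
  ext x
  simp only [mem_map, mem_filter, mem_univ, true_and, Fin.valEmbedding_apply, mem_Ico]
  constructor
  · rintro ⟨i, hi, rfl⟩; exact hi
  · intro hx; exact ⟨⟨x, by omega⟩, hx, rfl⟩

theorem card_sites (D : NBox) (N : ℕ) (hx : D.x1 ≤ N) (hy : D.y1 ≤ N) :
    (D.sites N).card = (D.x1 - D.x0) * (D.y1 - D.y0) := by
  rw [← card_fin_filter N D.x0 D.x1 hx, ← card_fin_filter N D.y0 D.y1 hy, ← Finset.card_product]
  congr 1
  ext v
  rw [mem_sites]
  simp only [mem_product, mem_filter, mem_univ, true_and]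
  tauto

theorem probBound {K G g1 g : ℕ} {h : ℝ} (hK : 1 ≤ K) (hG : 2 ≤ G) (hg : g = K * G * g1)
    (hh : 0 < h) (h1 : 1 ≤ (g : ℝ) * h) (h2 : (g : ℝ) * h ≤ 2) (h3 : h ^ 2 ≤ 1 / 2) :
    ((1 / ((K : ℝ) * G)) ^ 2) ^ (K * K) * Real.exp (-8) ≤
      (((g1 * g1 : ℕ) : ℝ) * h ^ 2) ^ (K * K) * (1 - h ^ 2) ^ (g * g) := by
  have hK0 : (0 : ℝ) < K := by exact_mod_cast hK
  have hG0 : (0 : ℝ) < G := by exact_mod_cast (by omega : 0 < G)
  have hKG : (0 : ℝ) < (K : ℝ) * G := mul_pos hK0 hG0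
  have e1 : 1 / ((K : ℝ) * G) ≤ g1 * h := by
    rw [div_le_iff₀ hKG]
    rw [hg] at h1
    push_cast at h1
    linarith
  have e2 : (1 / ((K : ℝ) * G)) ^ 2 ≤ ((g1 * g1 : ℕ) : ℝ) * h ^ 2 := by
    have : ((g1 * g1 : ℕ) : ℝ) * h ^ 2 = (g1 * h) ^ 2 := by push_cast; ring
    rw [this]
    exact pow_le_pow_left₀ (by positivity) e1 2
  have e3 : Real.exp (-8) ≤ (1 - h ^ 2) ^ (g * g) := by
    have h4 : Real.exp (-(2 * h ^ 2)) ≤ 1 - h ^ 2 := exp_neg_two_le (by positivity) h3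
    calc Real.exp (-8) ≤ Real.exp (((g * g : ℕ) : ℝ) * (-(2 * h ^ 2))) := by
          apply Real.exp_le_exp.2
          push_cast
          have : (g : ℝ) * h * (g * h) ≤ 2 * 2 := by
            apply mul_le_mul h2 h2 (by linarith) (by norm_num)
          nlinarith
      _ = Real.exp (-(2 * h ^ 2)) ^ (g * g) := by rw [← Real.exp_nat_mul]
      _ ≤ (1 - h ^ 2) ^ (g * g) := pow_le_pow_left₀ (Real.exp_pos _).le h4 _
  exact mul_le_mul (pow_le_pow_left₀ (by positivity) e2 _) e3 (Real.exp_pos _).le (by positivity)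

theorem varLower (h1 : Spec_probLower) (h2 : Spec_twoEvent) (h3 : Spec_gap) : Spec_varLower := by
  intro Fn C hGood
  obtain ⟨K, G, hK, hG, hgap⟩ := h3 Fn C hGood
  have hK0 : (0 : ℝ) < K := by exact_mod_cast hK
  have hG0 : (0 : ℝ) < G := by exact_mod_cast (by omega : 0 < G)
  set π0 : ℝ := ((1 / ((K : ℝ) * G)) ^ 2) ^ (K * K) * Real.exp (-8) with hπ0
  have hπpos : 0 < π0 := by positivity
  refine ⟨K * G, π0 / 4, Nat.succ_le_of_lt (Nat.mul_pos hK (by omega)), by positivity, ?_⟩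
  intro N B rs κ g h hN hrs hdvd hg hh hgh1 hgh2 hhsq j α
  obtain ⟨g1, hg1⟩ := hdvd
  have hg1pos : 0 < g1 := by
    rcases Nat.eq_zero_or_pos g1 with h0 | h0
    · rw [h0] at hg1; omega
    · exact h0
  have hp0 : (0 : ℝ) < h ^ 2 := by positivity
  have hw : IsWt (bw (h ^ 2) : Site N → Bool → ℝ) := isWt_bw hp0.le (by linarith)
  set f : (Site N → Bool) → ℝ := fun ω => Fj Fn h rs j ω - α * (Nj rs j ω : ℝ) with hf
  -- sub-boxes
  let X : Fin κ × Fin κ → ℕ := fun i => (j.1 : ℕ) * rs + i.1 * g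
  let Y : Fin κ × Fin κ → ℕ := fun i => (j.2 : ℕ) * rs + i.2 * g
  let D : Fin κ × Fin κ → NBox := fun i => NBox.mk (X i) (X i + K * G * g1) (Y i) (Y i + K * G * g1)
  let A : Fin κ × Fin κ → Finset (Site N) := fun i => (D i).sites N
  have hcell : ∀ a : Fin κ, (a : ℕ) * g + g ≤ rs := by
    intro a
    have : ((a : ℕ) + 1) * g ≤ κ * g := Nat.mul_le_mul_right _ a.2
    rw [hrs]; linarith
  have hsub : ∀ i, (D i).sub (blk rs j) := by
    intro i
    have a1 := hcell i.1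
    have a2 := hcell i.2
    refine ⟨?_, ?_, ?_, ?_⟩
    · show (j.1 : ℕ) * rs ≤ (j.1 : ℕ) * rs + i.1 * g
      omega
    · show (j.1 : ℕ) * rs + i.1 * g + K * G * g1 ≤ ((j.1 : ℕ) + 1) * rs
      rw [← hg1, add_mul]; omega
    · show (j.2 : ℕ) * rs ≤ (j.2 : ℕ) * rs + i.2 * g
      omega
    · show (j.2 : ℕ) * rs + i.2 * g + K * G * g1 ≤ ((j.2 : ℕ) + 1) * rs
      rw [← hg1, add_mul]; omega
  have hblkN : ∀ a : Fin B, ((a : ℕ) + 1) * rs ≤ N := by
    intro a
    rw [hN]; exact Nat.mul_le_mul_right _ a.2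
  have hDN : ∀ i, X i + K * G * g1 ≤ N ∧ Y i + K * G * g1 ≤ N := by
    intro i
    exact ⟨(hsub i).2.1.trans (hblkN j.1), (hsub i).2.2.2.trans (hblkN j.2)⟩
  have hAdis : ∀ i ∈ (univ : Finset (Fin κ × Fin κ)), ∀ i' ∈ (univ : Finset (Fin κ × Fin κ)),
      i ≠ i' → Disjoint (A i) (A i') := by
    intro i _ i' _ hne
    rw [Finset.disjoint_left]
    intro v hv hv'
    apply hne
    rw [mem_sites] at hv hv'
    simp only [D, X, Y, ← hg1] at hv hv'
    obtain ⟨a1, a2, a3, a4⟩ := hv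
    obtain ⟨b1, b2, b3, b4⟩ := hv'
    have key : ∀ (a b : Fin κ) (s t : ℕ), s + (a : ℕ) * g ≤ t → t < s + (a : ℕ) * g + g →
        s + (b : ℕ) * g ≤ t → t < s + (b : ℕ) * g + g → a = b := by
      intro a b s t c1 c2 c3 c4
      have d1 : (a : ℕ) * g < ((b : ℕ) + 1) * g := by rw [add_mul]; omega
      have d2 : (b : ℕ) * g < ((a : ℕ) + 1) * g := by rw [add_mul]; omega
      have d3 := Nat.lt_of_mul_lt_mul_right d1
      have d4 := Nat.lt_of_mul_lt_mul_right d2
      exact Fin.ext (by omega)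
    exact Prod.ext (key _ _ _ _ a1 a2 b1 b2) (key _ _ _ _ a3 a4 b3 b4)
  -- the variance splits
  have hsplit := Ex_proj hw (univ : Finset (Fin κ × Fin κ)) A univ f hAdis (fun i _ => subset_univ _)
  rw [PE_univ hw] at hsplit
  have hnn : 0 ≤ Ex (bw (h ^ 2) : Site N → Bool → ℝ) (fun u =>
      ((f u - Ex (bw (h ^ 2)) f) - ∑ i, (PE (bw (h ^ 2)) (A i) f u - Ex (bw (h ^ 2)) f)) ^ 2) :=
    Ex_nonneg hw fun u => sq_nonneg _
  have hsum : ∑ i, Vr (bw (h ^ 2)) (PE (bw (h ^ 2)) (A i) f) ≤ Vr (bw (h ^ 2)) f := by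
    rw [← hsplit]; linarith
  refine le_trans ?_ hsum
  have hone : ∀ i, π0 / 4 ≤ Vr (bw (h ^ 2)) (PE (bw (h ^ 2)) (A i) f) := by
    intro i
    -- the two families of little squares
    let S1 : Fin K × Fin K → Finset (Site N) := fun x =>
      (lsq (X i) (Y i) g1 (G * x.1 + G / 2) (G * x.2 + G / 2)).sites N
    let S2 : Fin K × Fin K → Finset (Site N) := fun x => (lsq (X i) (Y i) g1 x.1 x.2).sites N
    have hidx1 : ∀ a : Fin K, G * (a : ℕ) + G / 2 + 1 ≤ K * G := by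
      intro a
      have : G * ((a : ℕ) + 1) ≤ G * K := Nat.mul_le_mul_left _ a.2
      rw [mul_add, mul_comm G K] at this
      omega
    have hidx2 : ∀ a : Fin K, (a : ℕ) + 1 ≤ K * G := by
      intro a
      have h5 : K * 1 ≤ K * G := Nat.mul_le_mul_left _ (by omega)
      have := a.2
      omega
    have hbox : ∀ a b : ℕ, a + 1 ≤ K * G → b + 1 ≤ K * G →
        (lsq (X i) (Y i) g1 a b).sites N ⊆ A i ∧
          ((lsq (X i) (Y i) g1 a b).sites N).card = g1 * g1 := by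
      intro a b ha hb
      have ha' : (a + 1) * g1 ≤ K * G * g1 := Nat.mul_le_mul_right _ ha
      have hb' : (b + 1) * g1 ≤ K * G * g1 := Nat.mul_le_mul_right _ hb
      refine ⟨?_, ?_⟩
      · intro v hv
        rw [mem_sites] at hv ⊢
        simp only [lsq] at hv
        simp only [D]
        omega
      · rw [card_sites]
        · simp only [lsq, add_mul, one_mul]
          congr 1 <;> omega
        · simp only [lsq]; have := (hDN i).1; omega
        · simp only [lsq]; have := (hDN i).2; omega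
    have hdisj : ∀ a b a' b' : ℕ, (a ≠ a' ∨ b ≠ b') →
        Disjoint ((lsq (X i) (Y i) g1 a b).sites N) ((lsq (X i) (Y i) g1 a' b').sites N) := by
      intro a b a' b' hne
      rw [Finset.disjoint_left]
      intro v hv hv'
      rw [mem_sites] at hv hv'
      simp only [lsq] at hv hv'
      obtain ⟨a1, a2, a3, a4⟩ := hv
      obtain ⟨b1, b2, b3, b4⟩ := hv'
      have key : ∀ (c d s t : ℕ), s + c * g1 ≤ t → t < s + (c + 1) * g1 →
          s + d * g1 ≤ t → t < s + (d + 1) * g1 → c = d := by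
        intro c d s t c1 c2 c3 c4
        have d1 : c * g1 < (d + 1) * g1 := by omega
        have d2 : d * g1 < (c + 1) * g1 := by omega
        have d3 := Nat.lt_of_mul_lt_mul_right d1
        have d4 := Nat.lt_of_mul_lt_mul_right d2
        omega
      rcases hne with hne | hne
      · exact hne (key _ _ _ _ a1 a2 b1 b2)
      · exact hne (key _ _ _ _ a3 a4 b3 b4)
    have hcardA : (A i).card = g * g := by
      rw [card_sites _ _ (hDN i).1 (hDN i).2]
      simp only [D, ← hg1]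
      congr 1 <;> omega
    have hprob : ∀ S : Fin K × Fin K → Finset (Site N), (∀ x, S x ⊆ A i) →
        (∀ x y, x ≠ y → Disjoint (S x) (S y)) → (∀ x, (S x).card = g1 * g1) →
        π0 ≤ Ex (bw (h ^ 2)) (fun ω : Site N → Bool =>
          if (∀ x, cnt (S x) ω = 1) ∧ cnt (A i) ω = K * K then (1 : ℝ) else 0) := by
      intro S hS1 hS2 hS3
      have := h1 (Site N) (h ^ 2) hp0 hhsq (Fin K × Fin K) (A i) S hS1 hS2
      simp only [hS3, hcardA, prod_const, card_univ, Fintype.card_prod, Fintype.card_fin] at this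
      exact (probBound hK hG hg1 hh hgh1 hgh2 hhsq).trans this
    have hdep : ∀ S : Fin K × Fin K → Finset (Site N), (∀ x, S x ⊆ A i) →
        DependsOn (fun ω : Site N → Bool => (∀ x, cnt (S x) ω = 1) ∧ cnt (A i) ω = K * K)
          (A i : Set (Site N)) := by
      intro S hS ω ω' hω
      have e1 : ∀ x, cnt (S x) ω = cnt (S x) ω' := fun x =>
        cnt_congr fun v hv => hω v (by exact_mod_cast hS x hv)
      have e2 : cnt (A i) ω = cnt (A i) ω' := cnt_congr fun v hv => hω v (by exact_mod_cast hv)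
      simp only [e1, e2]
    have hS1sub : ∀ x, S1 x ⊆ A i := fun x => (hbox _ _ (hidx1 _) (hidx1 _)).1
    have hS2sub : ∀ x, S2 x ⊆ A i := fun x => (hbox _ _ (hidx2 _) (hidx2 _)).1
    have hS1dis : ∀ x y, x ≠ y → Disjoint (S1 x) (S1 y) := by
      intro x y hxy
      apply hdisj
      by_contra hcon
      push Not at hcon
      obtain ⟨c1, c2⟩ := hcon
      apply hxy
      have d1 : G * (x.1 : ℕ) = G * (y.1 : ℕ) := by omega
      have d2 : G * (x.2 : ℕ) = G * (y.2 : ℕ) := by omega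
      exact Prod.ext (Fin.ext (Nat.eq_of_mul_eq_mul_left (by omega) d1))
        (Fin.ext (Nat.eq_of_mul_eq_mul_left (by omega) d2))
    have hS2dis : ∀ x y, x ≠ y → Disjoint (S2 x) (S2 y) := by
      intro x y hxy
      apply hdisj
      by_contra hcon
      push Not at hcon
      exact hxy (Prod.ext (Fin.ext hcon.1) (Fin.ext hcon.2))
    refine h2 (Site N) Bool (bw (h ^ 2)) hw (A i) f
      (fun ω => (∀ x, cnt (S1 x) ω = 1) ∧ cnt (A i) ω = K * K)
      (fun ω => (∀ x, cnt (S2 x) ω = 1) ∧ cnt (A i) ω = K * K) π0 hπpos.le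
      (hdep S1 hS1sub) (hdep S2 hS2sub)
      (hprob S1 hS1sub hS1dis fun x => (hbox _ _ (hidx1 _) (hidx1 _)).2)
      (hprob S2 hS2sub hS2dis fun x => (hbox _ _ (hidx2 _) (hidx2 _)).2) ?_
    rintro ω ω' ⟨ha1, ha2⟩ ⟨hb1, hb2⟩ hout
    have hgapi := hgap N B rs g1 (X i) (Y i) h j hN hg1pos hh (by rw [← hg1]; exact hgh1) (hsub i)
      ω ω' hout (fun a b => ha1 (a, b)) ha2 (fun a b => hb1 (a, b)) hb2
    have hNj : Nj rs j ω = Nj rs j ω' := by
      unfold Nj
      have hAsub : A i ⊆ (blk rs j).sites N := by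
        intro v hv
        rw [mem_sites] at hv ⊢
        obtain ⟨s1, s2, s3, s4⟩ := hsub i
        omega
      rw [cnt_split hAsub ω, cnt_split hAsub ω', ha2, hb2]
      congr 1
      apply cnt_congr
      intro v hv
      exact hout v (mem_sdiff.1 hv).2
    simp only [hf, hNj]
    linarith
  calc π0 / 4 * (κ : ℝ) ^ 2 = ∑ _i : Fin κ × Fin κ, π0 / 4 := by
        simp only [sum_const, card_univ, Fintype.card_prod, Fintype.card_fin, nsmul_eq_mul]
        push_cast; ring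
    _ ≤ ∑ i, Vr (bw (h ^ 2)) (PE (bw (h ^ 2)) (A i) f) := sum_le_sum fun i _ => hone i

end Pool.Agent.Helper11.Matching
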